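import Mathlib

set_option autoImplicit false

/-!
# Exponential IP sets of type I: three cells

Let `T 0 = 1`, `T (k + 1) = 2 ^ T k`. Colour `n` by the number of `k` with `T k ≤ n`, modulo `3`. If
`2 ≤ a ≤ n` and `n ≥ 4` then `a ^ n` and `n` have different colours: the level goes up by one or
two. An exponential IP set of type I contains, for some fixed `a ≥ 2`, numbers `n` as large as one
likes together with `a ^ n`.
-/

namespace Pool.Agent.Results.MP_952e1b_co.TypeOneThreeCells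

/-- The sets `FE^I_n (X)` for `X = {x 0 < x 1 < x 2 < ⋯}`. -/
def FE1 (x : ℕ → ℕ) : ℕ → Set ℕ
  | 0 => {x 0}
  | n + 1 => {m | ∃ y ∈ FE1 x n, m = y ^ x (n + 1)} ∪ FE1 x n ∪ {x (n + 1)}

/-- `C` is an exponential IP set of type I: it contains `FE^I (X) = ⋃ n, FE^I_n (X)` for some
infinite set `X`, listed increasingly as `x 0 < x 1 < ⋯`. -/
def ExpIP1 (C : Set ℕ) : Prop := ∃ x : ℕ → ℕ, StrictMono x ∧ (⋃ n, FE1 x n) ⊆ C

/-- The tower `1, 2, 4, 16, 65536, …` -/
def T : ℕ → ℕ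
  | 0 => 1
  | k + 1 => 2 ^ T k

lemma T_lt (k : ℕ) : T k < T (k + 1) := Nat.lt_two_pow_self

lemma T_mono : StrictMono T := strictMono_nat_of_lt_succ T_lt

lemma lt_T (k : ℕ) : k < T k := by
  induction k with
  | zero => exact one_pos
  | succ k ih => exact lt_of_le_of_lt (Nat.succ_le_of_lt ih) (T_lt k)

/-- The largest `k` with `T k ≤ n` (and `0` for `n = 0`). -/
def lev (n : ℕ) : ℕ := Nat.findGreatest (fun k => T k ≤ n) n

lemma lev_eq {n k : ℕ} (h1 : T k ≤ n) (h2 : n < T (k + 1)) : lev n = k := by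
  unfold lev
  rw [Nat.findGreatest_eq_iff]
  refine ⟨?_, fun _ => h1, fun {m} hm _ h => ?_⟩
  · exact le_trans (lt_T k).le h1
  · have : T (k + 1) ≤ T m := T_mono.monotone hm
    omega

lemma exists_lev {n : ℕ} (hn : 1 ≤ n) : ∃ k, T k ≤ n ∧ n < T (k + 1) := by
  have hex : ∃ k, n < T k := ⟨n, lt_T n⟩
  classical
  have h1 := Nat.find_spec hex
  have h0 : Nat.find hex ≠ 0 := by
    intro h
    rw [h] at h1
    have : T 0 = 1 := rfl
    omega
  obtain ⟨k, hk⟩ := Nat.exists_eq_succ_of_ne_zero h0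
  refine ⟨k, ?_, ?_⟩
  · have := Nat.find_min hex (m := k) (by omega)
    omega
  · rw [hk] at h1
    exact h1

lemma lev_pow {a n : ℕ} (ha : 2 ≤ a) (han : a ≤ n) (hn : 4 ≤ n) :
    lev (a ^ n) = lev n + 1 ∨ lev (a ^ n) = lev n + 2 := by
  obtain ⟨k, h1, h2⟩ := exists_lev (n := n) (by omega)
  have hk := lev_eq h1 h2
  have h3 : T (k + 1) ≤ a ^ n := by
    calc T (k + 1) = 2 ^ T k := rfl
      _ ≤ 2 ^ n := Nat.pow_le_pow_right (by norm_num) h1
      _ ≤ a ^ n := Nat.pow_le_pow_left ha n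
  have hsq : ∀ t : ℕ, 4 ≤ t → t ^ 2 ≤ 2 ^ t := by
    intro t ht
    induction t, ht using Nat.le_induction with
    | base => norm_num
    | succ t ht ih =>
      have : (t + 1) ^ 2 ≤ 2 * t ^ 2 := by nlinarith
      calc (t + 1) ^ 2 ≤ 2 * t ^ 2 := this
        _ ≤ 2 * 2 ^ t := by omega
        _ = 2 ^ (t + 1) := by ring
  have h4 : a ^ n < T (k + 3) := by
    have h5 : a < 2 ^ a := Nat.lt_two_pow_self
    calc a ^ n < (2 ^ a) ^ n := Nat.pow_lt_pow_left h5 (by omega)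
      _ = 2 ^ (a * n) := by rw [← pow_mul]
      _ ≤ 2 ^ (T (k + 1) ^ 2) := by
          apply Nat.pow_le_pow_right (by norm_num)
          rw [sq]
          exact Nat.mul_le_mul (by omega) (by omega)
      _ ≤ 2 ^ (2 ^ T (k + 1)) := Nat.pow_le_pow_right (by norm_num) (hsq _ (by omega))
      _ = T (k + 3) := rfl
  rcases lt_or_ge (a ^ n) (T (k + 2)) with h | h
  · left
    rw [hk]
    exact lev_eq h3 h
  · right
    rw [hk]
    exact lev_eq h h4

/-- The colouring. -/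
def col (n : ℕ) : Fin 3 := ⟨lev n % 3, Nat.mod_lt _ (by norm_num)⟩

lemma col_ne {a n : ℕ} (ha : 2 ≤ a) (han : a ≤ n) (hn : 4 ≤ n) : col (a ^ n) ≠ col n := by
  intro h
  have h1 := congrArg Fin.val h
  simp only [col] at h1
  rcases lev_pow ha han hn with h2 | h2 <;> rw [h2] at h1 <;> omega

lemma mem_self (x : ℕ → ℕ) (n : ℕ) : x n ∈ FE1 x n := by
  cases n with
  | zero => exact rfl
  | succ n => exact Or.inr rfl

lemma FE1_mono (x : ℕ → ℕ) {m n : ℕ} (h : m ≤ n) : FE1 x m ⊆ FE1 x n := by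
  induction n, h using Nat.le_induction with
  | base => exact subset_rfl
  | succ n _ ih => exact fun y hy => Or.inl (Or.inr (ih hy))

/-- There is a partition of `ℕ` into three cells, given by `c : ℕ → Fin 3`, none of which is an
exponential IP set of type I. In fact `a ^ n` and `n` are in different cells for all
`2 ≤ a ≤ n`, `n ≥ 4`. -/
theorem result : ∃ c : ℕ → Fin 3,
    (∀ a n : ℕ, 2 ≤ a → a ≤ n → 4 ≤ n → c (a ^ n) ≠ c n) ∧
    ∀ i : Fin 3, ¬ ExpIP1 {n | c n = i} := by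
  refine ⟨col, fun a n ha han hn => col_ne ha han hn, ?_⟩
  rintro i ⟨x, hx, hC⟩
  have hid : ∀ n, n ≤ x n := hx.id_le
  have hlt : x 2 < x 4 := hx (by norm_num)
  have e1 : col (x 4) = i := hC (Set.mem_iUnion.2 ⟨4, mem_self x 4⟩)
  have e2 : col (x 2 ^ x 4) = i := by
    apply hC
    refine Set.mem_iUnion.2 ⟨4, Or.inl (Or.inl ⟨x 2, ?_, rfl⟩)⟩
    exact FE1_mono x (by norm_num) (mem_self x 2)
  exact col_ne (hid 2) hlt.le (hid 4) (e2.trans e1.symm)

end Pool.Agent.Results.MP_952e1b_co.TypeOneThreeCells
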